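import Pool.Agent.Lib.MP_ea1188_al.KG.AsmAC

/-! # [CHAIN]; MP_ea1188_al, helper60. -/

set_option autoImplicit false

namespace KG.H60

open KG

lemma chain_aux (hT : TransferS) {κ : Kind} {R : Type} [Ring R] [Algebra (ZMod 2) R] (T : KT κ R)
    (n : ℕ) : ∀ (Γ : Type) [Group Γ] (N : Subgroup Γ), N.Normal → N.index = 2 ^ n →
    ∀ ρ : Γ →* R, Tame T (ρ.comp N.subtype) → Tame T ρ := by
  induction n with
  | zero =>
    intro Γ _ N _ hi ρ h
    rw [pow_zero, Subgroup.index_eq_one] at hi
    subst hi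
    exact Tame.of_equiv Subgroup.topEquiv h
  | succ n ih =>
    intro Γ _ N hN hi ρ h
    have hcard : Nat.card (Γ ⧸ N) = 2 ^ (n + 1) := hi
    have hfin : Finite (Γ ⧸ N) := Nat.finite_of_card_ne_zero (by rw [hcard]; positivity)
    obtain ⟨K, hK⟩ := Sylow.exists_subgroup_card_pow_prime (G := Γ ⧸ N) 2 (n := n)
      (by rw [hcard]; exact pow_dvd_pow 2 (Nat.le_succ n))
    have hKi : K.index = 2 := by
      have h1 := K.card_mul_index
      rw [hK, hcard, pow_succ] at h1
      exact Nat.eq_of_mul_eq_mul_left (by positivity) h1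
    set H : Subgroup Γ := K.comap (QuotientGroup.mk' N) with hH
    have hHi : H.index = 2 := by
      rw [hH, Subgroup.index_comap_of_surjective K (QuotientGroup.mk'_surjective N), hKi]
    have hNH : N ≤ H := by
      intro x hx
      rw [hH, Subgroup.mem_comap, QuotientGroup.mk'_apply, (QuotientGroup.eq_one_iff x).2 hx]
      exact K.one_mem
    have hrel : N.relIndex H = 2 ^ n := by
      have h1 := Subgroup.relIndex_mul_index hNH
      rw [hHi, hi, pow_succ] at h1
      exact Nat.eq_of_mul_eq_mul_right (by norm_num) h1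
    apply hT κ R T Γ H hHi
    apply ih H (N.subgroupOf H) (hN.subgroupOf H) hrel
    apply Tame.of_equiv (Subgroup.subgroupOfEquivOfLe hNH).symm
    exact h

theorem chain (hT : TransferS) : ChainS := by
  intro κ R _ _ T Γ _ N hN hf hp ρ h
  have h2 : IsPGroup 2 (Γ ⧸ N) := by
    intro x
    obtain ⟨y, rfl⟩ := QuotientGroup.mk_surjective x
    obtain ⟨k, hk⟩ := hp y
    exact ⟨k, by rw [← QuotientGroup.mk_pow]; exact (QuotientGroup.eq_one_iff _).2 hk⟩
  have hfin : Finite (Γ ⧸ N) := inferInstance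
  obtain ⟨n, hn⟩ := (IsPGroup.iff_card (p := 2)).1 h2
  exact chain_aux hT T n Γ N hN hn ρ h

end KG.H60
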