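import Pool.Agent.Lib.MP_ea1188_al.KG.IfaceC

/-! # The characters `χ_z`, part 1: the integral determinants. MP_ea1188_al, helper60. -/

set_option autoImplicit false

namespace KG.H60

open Matrix KG

/-- `bigM` as a ring homomorphism. -/
noncomputable def bigH (Q Y : Type) [Group Q] [MulAction Q Y] [Fintype Y] [DecidableEq Y]
    (ι : Type) [Fintype ι] [DecidableEq ι] :
    Matrix ι ι (MonoidAlgebra ℤ Q) →+* Matrix (ι × Y) (ι × Y) ℤ :=
  (Matrix.compRingEquiv ι Y ℤ).toRingHom.comp (prep Q Y).mapMatrix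

lemma bigH_apply (Q Y : Type) [Group Q] [MulAction Q Y] [Fintype Y] [DecidableEq Y]
    (ι : Type) [Fintype ι] [DecidableEq ι] (X : Matrix ι ι (MonoidAlgebra ℤ Q)) :
    bigH Q Y ι X = bigM Q Y X := rfl

/-- The determinant of the action on copies of `ℤ[Y]`. -/
noncomputable def dt (Q Y : Type) [Group Q] [MulAction Q Y] [Fintype Y] [DecidableEq Y]
    (ι : Type) [Fintype ι] [DecidableEq ι] :
    Matrix ι ι (MonoidAlgebra ℤ Q) →* ℤ :=
  Matrix.detMonoidHom.comp (bigH Q Y ι).toMonoidHom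

lemma dt_apply (Q Y : Type) [Group Q] [MulAction Q Y] [Fintype Y] [DecidableEq Y]
    (ι : Type) [Fintype ι] [DecidableEq ι] (X : Matrix ι ι (MonoidAlgebra ℤ Q)) :
    dt Q Y ι X = (bigM Q Y X).det := rfl

lemma dPoly_eval_one {ι : Type} [Fintype ι] [DecidableEq ι] (M : Matrix ι ι ℤ) :
    (dPoly M).eval 1 = (1 + M).det := by
  rw [dPoly, ← Polynomial.coe_evalRingHom, RingHom.map_det]
  congr 1
  ext i j
  by_cases h : i = j <;> simp [h, Matrix.one_apply]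

lemma dPoly_eval_zero {ι : Type} [Fintype ι] [DecidableEq ι] (M : Matrix ι ι ℤ) :
    (dPoly M).eval 0 = 1 := by
  rw [dPoly, ← Polynomial.coe_evalRingHom, RingHom.map_det]
  rw [← Matrix.det_one (n := ι) (R := ℤ)]
  congr 1
  ext i j
  by_cases h : i = j <;> simp [h, Matrix.one_apply]

lemma eval_one_dvd (p : Polynomial ℤ) (m : ℤ)
    (h : ∀ n, m ∣ PowerSeries.coeff n (p : PowerSeries ℤ)) : m ∣ p.eval 1 := by
  rw [Polynomial.eval_eq_sum, Polynomial.sum]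
  refine Finset.dvd_sum fun n _ => ?_
  have := h n
  rw [Polynomial.coeff_coe] at this
  simpa using this

section
variable {Q : Type} [Group Q] [Fintype Q] [DecidableEq Q] {z : Q} {N : ℕ}
  [DecidableEq (Q ⧸ Subgroup.zpowers z)] [Fintype (Q ⧸ Subgroup.zpowers z)]
  {ι : Type} [Fintype ι] [DecidableEq ι]

/-- The differential equation. -/
lemma dlog_eq (hD : DlogS) (hT : TrcS) (hz : z * z = 1) (hz1 : z ≠ 1)
    (hc : Nat.card (Subgroup.centralizer {z}) = 2 ^ N) (X : Matrix ι ι (MonoidAlgebra ℤ Q)) :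
    PowerSeries.derivativeFun
        ((((dPoly (bigM Q (Q ⧸ Subgroup.zpowers z) X)) ^ 2 : Polynomial ℤ)) : PowerSeries ℤ) *
          (dPoly (bigM Q Q X) : PowerSeries ℤ) -
        ((((dPoly (bigM Q (Q ⧸ Subgroup.zpowers z) X)) ^ 2 : Polynomial ℤ)) : PowerSeries ℤ) *
          PowerSeries.derivativeFun (dPoly (bigM Q Q X) : PowerSeries ℤ) =
      ((((dPoly (bigM Q (Q ⧸ Subgroup.zpowers z) X)) ^ 2 : Polynomial ℤ)) : PowerSeries ℤ) *
        (dPoly (bigM Q Q X) : PowerSeries ℤ) *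
        PowerSeries.mk (fun j => (fun j => (-1) ^ (j + 1) * (2 ^ N * cz z (X ^ j))) (j + 1)) := by
  have h1 := hD _ (bigM Q (Q ⧸ Subgroup.zpowers z) X)
  have h0 := hD _ (bigM Q Q X)
  have hS : PowerSeries.mk (fun j => (fun j => (-1) ^ (j + 1) * (2 ^ N * cz z (X ^ j))) (j + 1)) =
      2 * PowerSeries.mk (fun j => (-1) ^ j *
        Matrix.trace (bigM Q (Q ⧸ Subgroup.zpowers z) X ^ (j + 1))) -
      PowerSeries.mk (fun j => (-1) ^ j * Matrix.trace (bigM Q Q X ^ (j + 1))) := by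
    ext j
    have e1 : bigM Q (Q ⧸ Subgroup.zpowers z) X ^ (j + 1) =
        bigM Q (Q ⧸ Subgroup.zpowers z) (X ^ (j + 1)) := by
      rw [← bigH_apply, ← bigH_apply, map_pow]
    have e0 : bigM Q Q X ^ (j + 1) = bigM Q Q (X ^ (j + 1)) := by
      rw [← bigH_apply, ← bigH_apply, map_pow]
    have h2 : PowerSeries.coeff j (2 * PowerSeries.mk (fun j => (-1) ^ j *
        Matrix.trace (bigM Q (Q ⧸ Subgroup.zpowers z) X ^ (j + 1)))) =
        2 * ((-1) ^ j * Matrix.trace (bigM Q (Q ⧸ Subgroup.zpowers z) X ^ (j + 1))) := by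
      rw [two_mul, map_add, PowerSeries.coeff_mk, two_mul]
    rw [map_sub, h2, PowerSeries.coeff_mk, PowerSeries.coeff_mk, e1, e0]
    show (-1) ^ (j + 1 + 1) * (2 ^ N * cz z (X ^ (j + 1))) = _
    rw [← hT Q z N hz hz1 hc ι (X ^ (j + 1))]
    ring
  rw [hS]
  rw [Polynomial.coe_pow, pow_two, PowerSeries.derivativeFun_mul, h1, h0]
  simp only [smul_eq_mul]
  ring

/-- The basic congruences. -/
lemma basic (hE : ExplS) (hD : DlogS) (hT : TrcS) (hz : z * z = 1) (hz1 : z ≠ 1)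
    (hc : Nat.card (Subgroup.centralizer {z}) = 2 ^ N) (X : Matrix ι ι (MonoidAlgebra ℤ Q)) :
    (∀ a : ℕ, 1 ≤ a → (∀ j, 1 ≤ j → (2 : ℤ) ^ (a + padicValNat 2 j) ∣ 2 ^ N * cz z (X ^ j)) →
      (2 : ℤ) ^ a ∣ dt Q (Q ⧸ Subgroup.zpowers z) ι (1 + X) ^ 2 - dt Q Q ι (1 + X)) ∧
    (∀ a M : ℕ, 2 ≤ a → 1 ≤ M →
      (∀ j, 1 ≤ j → (2 : ℤ) ^ (a + padicValNat 2 j) ∣ 2 ^ N * cz z (X ^ j)) →
      (∀ j, 1 ≤ j → j ≠ M → (2 : ℤ) ^ (a + padicValNat 2 j + 1) ∣ 2 ^ N * cz z (X ^ j)) →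
      (¬ (2 : ℤ) ^ (a + padicValNat 2 M + 1) ∣ 2 ^ N * cz z (X ^ M)) →
      (2 : ℤ) ^ (a + 1) ∣ dt Q (Q ⧸ Subgroup.zpowers z) ι (1 + X) ^ 2 - dt Q Q ι (1 + X) -
        2 ^ a * dt Q Q ι (1 + X)) ∧
    ((∀ j, 1 ≤ j → cz z (X ^ j) = 0) →
      dt Q (Q ⧸ Subgroup.zpowers z) ι (1 + X) ^ 2 = dt Q Q ι (1 + X)) := by
  have hb1 : bigM Q (Q ⧸ Subgroup.zpowers z) (1 + X) = 1 + bigM Q (Q ⧸ Subgroup.zpowers z) X := by
    rw [← bigH_apply, ← bigH_apply, map_add, map_one]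
  have hb0 : bigM Q Q (1 + X) = 1 + bigM Q Q X := by
    rw [← bigH_apply, ← bigH_apply, map_add, map_one]
  have hd1 : dt Q (Q ⧸ Subgroup.zpowers z) ι (1 + X) =
      (dPoly (bigM Q (Q ⧸ Subgroup.zpowers z) X)).eval 1 := by
    rw [dPoly_eval_one, dt_apply, hb1]
  have hd0 : dt Q Q ι (1 + X) = (dPoly (bigM Q Q X)).eval 1 := by
    rw [dPoly_eval_one, dt_apply, hb0]
  have hA : PowerSeries.constantCoeff
      (((dPoly (bigM Q (Q ⧸ Subgroup.zpowers z) X)) ^ 2 : Polynomial ℤ) : PowerSeries ℤ) = 1 := by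
    rw [Polynomial.constantCoeff_coe, Polynomial.coeff_zero_eq_eval_zero, Polynomial.eval_pow,
      dPoly_eval_zero, one_pow]
  have hB : PowerSeries.constantCoeff (dPoly (bigM Q Q X) : PowerSeries ℤ) = 1 := by
    rw [Polynomial.constantCoeff_coe, Polynomial.coeff_zero_eq_eval_zero, dPoly_eval_zero]
  obtain ⟨r1, r2, r3⟩ := hE _ _ (fun j => (-1) ^ (j + 1) * (2 ^ N * cz z (X ^ j))) hA hB
    (dlog_eq hD hT hz hz1 hc X)
  have hsign : ∀ (j : ℕ) (m y : ℤ), m ∣ (-1) ^ (j + 1) * y ↔ m ∣ y := by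
    intro j m y
    rcases neg_one_pow_eq_or ℤ (j + 1) with h | h <;> simp [h]
  refine ⟨?_, ?_, ?_⟩
  · intro a ha h
    have h2 := r1 a ha (fun j hj => (hsign j _ _).2 (h j hj))
    rw [hd1, hd0, ← Polynomial.eval_pow, ← Polynomial.eval_sub]
    apply eval_one_dvd
    intro n
    rw [Polynomial.coe_sub]
    exact h2 n
  · intro a M ha hM h h' h''
    have h2 := r2 a M ha hM (fun j hj => (hsign j _ _).2 (h j hj))
      (fun j hj hjM => (hsign j _ _).2 (h' j hj hjM)) (fun hh => h'' ((hsign M _ _).1 hh))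
    have h3 : dt Q (Q ⧸ Subgroup.zpowers z) ι (1 + X) ^ 2 - dt Q Q ι (1 + X) -
        2 ^ a * dt Q Q ι (1 + X) = ((dPoly (bigM Q (Q ⧸ Subgroup.zpowers z) X)) ^ 2 -
        dPoly (bigM Q Q X) - (2 : Polynomial ℤ) ^ a * (Polynomial.X ^ M *
          dPoly (bigM Q Q X))).eval 1 := by
      rw [hd1, hd0]
      simp
    rw [h3]
    apply eval_one_dvd
    intro n
    have h4 := h2 n
    have h5 : (((dPoly (bigM Q (Q ⧸ Subgroup.zpowers z) X)) ^ 2 -
        dPoly (bigM Q Q X) - (2 : Polynomial ℤ) ^ a * (Polynomial.X ^ M *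
          dPoly (bigM Q Q X)) : Polynomial ℤ) : PowerSeries ℤ) =
        (((dPoly (bigM Q (Q ⧸ Subgroup.zpowers z) X)) ^ 2 : Polynomial ℤ) : PowerSeries ℤ) -
          (dPoly (bigM Q Q X) : PowerSeries ℤ) - (2 : PowerSeries ℤ) ^ a *
        (PowerSeries.X ^ M * (dPoly (bigM Q Q X) : PowerSeries ℤ)) := by
      have h6 : ((2 : Polynomial ℤ) : PowerSeries ℤ) = 2 :=
        map_ofNat Polynomial.coeToPowerSeries.ringHom 2
      simp [h6]
    rw [h5]
    exact h4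
  · intro h
    have h2 := r3 (fun j hj => by simp [h j hj])
    have h3 := Polynomial.coe_injective ℤ h2
    rw [hd1, hd0, ← Polynomial.eval_pow, h3]

end

end KG.H60
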