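import Pool.Agent.Lib.MP_ea1188_al.KG.H60.Chi1

/-! # The characters `χ_z`, part 2: the homomorphisms. MP_ea1188_al, helper60. -/

set_option autoImplicit false

namespace KG.H60

open Matrix KG

/-! ### Arithmetic -/

lemma pow_one_add {S : Type} [CommRing S] (a k : ℕ) (ha : 1 ≤ a) (t : S) :
    ∃ t' : S, (1 + 2 ^ a * t) ^ (2 ^ k) = 1 + 2 ^ (a + k) * t' := by
  induction k with
  | zero => exact ⟨t, by simp⟩
  | succ k ih =>
    obtain ⟨t', ht'⟩ := ih
    obtain ⟨b, rfl⟩ : ∃ b, a = b + 1 := ⟨a - 1, by omega⟩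
    refine ⟨t' + 2 ^ (b + k) * t' ^ 2, ?_⟩
    rw [pow_succ 2 k, pow_mul, ht']
    ring

lemma pow_one_add' {S : Type} [CommRing S] (a k : ℕ) (ha : 2 ≤ a) (t : S) :
    ∃ t' : S, (1 + 2 ^ a * (1 + 2 * t)) ^ (2 ^ k) = 1 + 2 ^ (a + k) * (1 + 2 * t') := by
  induction k with
  | zero => exact ⟨t, by simp⟩
  | succ k ih =>
    obtain ⟨t', ht'⟩ := ih
    obtain ⟨b, rfl⟩ : ∃ b, a = b + 2 := ⟨a - 2, by omega⟩
    refine ⟨t' + 2 ^ (b + k) * (1 + 2 * t') ^ 2, ?_⟩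
    rw [pow_succ 2 k, pow_mul, ht']
    ring

lemma two_pow_ne_zero (N : ℕ) : (2 : ZMod (2 ^ (N + 1))) ^ N ≠ 0 := by
  have h : ((2 ^ N : ℕ) : ZMod (2 ^ (N + 1))) ≠ 0 := by
    rw [Ne, ZMod.natCast_eq_zero_iff]
    intro hd
    have := Nat.le_of_dvd (by positivity) hd
    rw [pow_succ] at this
    have h2 : 0 < 2 ^ N := by positivity
    omega
  simpa using h

lemma two_pow_zero (N : ℕ) : (2 : ZMod (2 ^ (N + 1))) ^ (N + 1) = 0 := by
  have h : ((2 ^ (N + 1) : ℕ) : ZMod (2 ^ (N + 1))) = 0 := by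
    rw [ZMod.natCast_self]
  rw [Nat.cast_pow] at h
  exact h

lemma isUnit_of_odd (N : ℕ) {m : ℤ} (h : Odd m) : IsUnit (m : ZMod (2 ^ (N + 1))) := by
  obtain ⟨t, rfl⟩ := h
  have h1 : IsNilpotent ((2 * t : ℤ) : ZMod (2 ^ (N + 1))) := by
    refine ⟨N + 1, ?_⟩
    push_cast
    rw [mul_pow, two_pow_zero, zero_mul]
  push_cast at h1 ⊢
  exact h1.isUnit_add_one

/-! ### Lifts -/

/-- Reduction modulo `2`. -/
noncomputable def red (Q : Type) [Group Q] : MonoidAlgebra ℤ Q →+* MonoidAlgebra (ZMod 2) Q :=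
  MonoidAlgebra.mapRingHom Q (Int.castRingHom (ZMod 2))

lemma red_surj (Q : Type) [Group Q] : Function.Surjective (red Q) := by
  intro x
  induction x using MonoidAlgebra.induction_on with
  | of g => exact ⟨MonoidAlgebra.of ℤ Q g, by simp [red]⟩
  | add x y hx hy =>
    obtain ⟨x', rfl⟩ := hx
    obtain ⟨y', rfl⟩ := hy
    exact ⟨x' + y', map_add _ _ _⟩
  | smul r x hx =>
    obtain ⟨x', rfl⟩ := hx
    obtain ⟨r', rfl⟩ := ZMod.intCast_surjective r
    refine ⟨MonoidAlgebra.single 1 r' * x', ?_⟩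
    rw [map_mul]
    ext g
    simp [red, MonoidAlgebra.coeff_single_one_mul]

lemma red_eq_zero {Q : Type} [Group Q] {x : MonoidAlgebra ℤ Q} (h : red Q x = 0) :
    ∃ y : MonoidAlgebra ℤ Q, x = 2 * y := by
  have hx : ∀ g, (2 : ℤ) ∣ x.coeff g := by
    intro g
    have h1 : (red Q x).coeff g = 0 := by rw [h]; rfl
    rw [red, MonoidAlgebra.coeff_mapRingHom] at h1
    exact (ZMod.intCast_zmod_eq_zero_iff_dvd _ 2).1 h1
  refine ⟨⟨x.coeff.mapRange (fun m => m / 2) (by simp)⟩, ?_⟩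
  ext g
  rw [two_mul, MonoidAlgebra.coeff_add]
  simp only [Finsupp.add_apply, Finsupp.mapRange_apply]
  have := hx g
  omega

lemma red_matrix {Q : Type} [Group Q] {ι : Type} [Fintype ι] [DecidableEq ι]
    {X : Matrix ι ι (MonoidAlgebra ℤ Q)} (h : X.map (red Q) = 1) :
    ∃ w : Matrix ι ι (MonoidAlgebra ℤ Q), X = 1 + 2 • w := by
  have h1 : ∀ i j, ∃ y, (X - 1) i j = 2 * y := by
    intro i j
    apply red_eq_zero
    rw [Matrix.sub_apply, map_sub]
    have h2 : red Q (X i j) = (1 : Matrix ι ι (MonoidAlgebra (ZMod 2) Q)) i j := by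
      rw [← h]; rfl
    rw [h2]
    by_cases hij : i = j
    · subst hij; simp
    · simp [hij]
  choose w hw using h1
  refine ⟨Matrix.of w, ?_⟩
  ext i j : 2
  have := hw i j
  rw [Matrix.sub_apply, sub_eq_iff_eq_add] at this
  rw [this, Matrix.add_apply, Matrix.smul_apply, Matrix.of_apply, two_smul, two_mul, add_comm]

end KG.H60
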