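import Pool.Agent.Lib.MP_ea1188_al.KG.H60.Chi2

/-! # The characters `χ_z`, part 3: assembly. MP_ea1188_al, helper60. -/

set_option autoImplicit false

namespace KG.H60

open Matrix KG

section
variable {Q : Type} [Group Q] [Fintype Q] [DecidableEq Q] {z : Q} {N : ℕ}
  [DecidableEq (Q ⧸ Subgroup.zpowers z)] [Fintype (Q ⧸ Subgroup.zpowers z)]
  {ι : Type} [Fintype ι] [DecidableEq ι]

/-- The ratio of determinants, in `ℤ/2^(N+1)`. -/
noncomputable def ra (z : Q) (N : ℕ) [DecidableEq (Q ⧸ Subgroup.zpowers z)]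
    [Fintype (Q ⧸ Subgroup.zpowers z)] (ι : Type) [Fintype ι] [DecidableEq ι] :
    Matrix ι ι (MonoidAlgebra ℤ Q) →* ZMod (2 ^ (N + 1)) where
  toFun X := ((dt Q (Q ⧸ Subgroup.zpowers z) ι X ^ 2 : ℤ) : ZMod (2 ^ (N + 1))) *
    Ring.inverse ((dt Q Q ι X : ℤ) : ZMod (2 ^ (N + 1)))
  map_one' := by simp
  map_mul' X Y := by
    rw [map_mul, map_mul, mul_pow, Int.cast_mul, Int.cast_mul, Ring.mul_inverse_rev]
    ring

lemma ra_apply (X : Matrix ι ι (MonoidAlgebra ℤ Q)) :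
    ra z N ι X = ((dt Q (Q ⧸ Subgroup.zpowers z) ι X ^ 2 : ℤ) : ZMod (2 ^ (N + 1))) *
    Ring.inverse ((dt Q Q ι X : ℤ) : ZMod (2 ^ (N + 1))) := rfl

/-- Determinants of matrices congruent to `1` modulo `2` are odd. -/
lemma dt_odd (Y : Type) [MulAction Q Y] [Fintype Y] [DecidableEq Y]
    (w : Matrix ι ι (MonoidAlgebra ℤ Q)) : Odd (dt Q Y ι (1 + 2 • w)) := by
  rw [dt_apply, ← bigH_apply, map_add, map_one, map_nsmul]
  have h : ((((1 : Matrix (ι × Y) (ι × Y) ℤ) + 2 • (bigH Q Y ι) w).det : ℤ) : ZMod 2) = 1 := by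
    show Int.castRingHom (ZMod 2) _ = 1
    rw [RingHom.map_det, map_add, map_one, map_nsmul]
    have h0 : (2 : ℕ) • ((Int.castRingHom (ZMod 2)).mapMatrix (bigH Q Y ι w)) = 0 := by
      ext i j
      rw [Matrix.smul_apply, nsmul_eq_mul]
      have h2 : ((2 : ℕ) : ZMod 2) = 0 := by decide
      rw [h2, zero_mul, Matrix.zero_apply]
    rw [h0, add_zero, Matrix.det_one]
  rw [← Int.not_even_iff_odd]
  intro he
  have h3 : ((((1 : Matrix (ι × Y) (ι × Y) ℤ) + 2 • (bigH Q Y ι) w).det : ℤ) : ZMod 2) = 0 := by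
    rw [ZMod.intCast_zmod_eq_zero_iff_dvd]
    exact_mod_cast he.two_dvd
  rw [h] at h3
  exact one_ne_zero h3

lemma ra_of_eq {X : Matrix ι ι (MonoidAlgebra ℤ Q)} (ho : Odd (dt Q Q ι X)) {m t : ℤ}
    (h : dt Q (Q ⧸ Subgroup.zpowers z) ι X ^ 2 = dt Q Q ι X + m * t) :
    ∃ t' : ZMod (2 ^ (N + 1)), ra z N ι X = 1 + m * t' := by
  have hu := isUnit_of_odd N ho
  refine ⟨t * Ring.inverse ((dt Q Q ι X : ℤ) : ZMod (2 ^ (N + 1))), ?_⟩
  rw [ra_apply, h]
  push_cast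
  rw [add_mul, Ring.mul_inverse_cancel _ hu, mul_assoc]

/-- (L2) -/
lemma ra_one_add (hE : ExplS) (hD : DlogS) (hT : TrcS) (hz : z * z = 1) (hz1 : z ≠ 1)
    (hc : Nat.card (Subgroup.centralizer {z}) = 2 ^ N) (w : Matrix ι ι (MonoidAlgebra ℤ Q)) :
    ra z N ι (1 + 2 • w) = 1 := by
  have h1 := (basic hE hD hT hz hz1 hc (2 • w)).1 (N + 1) (by omega) (by
    intro j hj
    have h2 : (2 • w) ^ j = (2 ^ j) • w ^ j := by
      rw [smul_pow]
    have h3 : cz z ((2 • w) ^ j) = 2 ^ j * cz z (w ^ j) := by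
      rw [h2, cz, cz, Finset.mul_sum]
      refine Finset.sum_congr rfl fun i _ => ?_
      rw [Finset.mul_sum]
      refine Finset.sum_congr rfl fun g _ => ?_
      rw [Matrix.smul_apply, MonoidAlgebra.coeff_smul]
      simp
    rw [h3, ← mul_assoc, ← pow_add]
    apply Dvd.dvd.mul_right
    apply pow_dvd_pow
    have h4 : 2 ^ padicValNat 2 j ≤ j := Nat.le_of_dvd hj pow_padicValNat_dvd
    have h5 : padicValNat 2 j < 2 ^ padicValNat 2 j := Nat.lt_two_pow_self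
    omega)
  obtain ⟨t, ht⟩ := h1
  obtain ⟨t', ht'⟩ := ra_of_eq (N := N) (dt_odd Q w)
    (show dt Q (Q ⧸ Subgroup.zpowers z) ι (1 + 2 • w) ^ 2 = dt Q Q ι (1 + 2 • w) +
      2 ^ (N + 1) * t by linarith)
  rw [ht']
  push_cast
  rw [two_pow_zero, zero_mul, add_zero]

lemma ra_red_one (hE : ExplS) (hD : DlogS) (hT : TrcS) (hz : z * z = 1) (hz1 : z ≠ 1)
    (hc : Nat.card (Subgroup.centralizer {z}) = 2 ^ N) {X : Matrix ι ι (MonoidAlgebra ℤ Q)}
    (hX : X.map (red Q) = 1) : ra z N ι X = 1 := by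
  obtain ⟨w, rfl⟩ := red_matrix hX
  exact ra_one_add hE hD hT hz hz1 hc w

lemma ra_congr (hE : ExplS) (hD : DlogS) (hT : TrcS) (hz : z * z = 1) (hz1 : z ≠ 1)
    (hc : Nat.card (Subgroup.centralizer {z}) = 2 ^ N) {X X' : Matrix ι ι (MonoidAlgebra ℤ Q)}
    {u : (Matrix ι ι (MonoidAlgebra (ZMod 2) Q))ˣ} (hX : X.map (red Q) = u.val)
    (hX' : X'.map (red Q) = u.val) : ra z N ι X = ra z N ι X' := by
  obtain ⟨V, hV⟩ : ∃ V : Matrix ι ι (MonoidAlgebra ℤ Q), V.map (red Q) = u.inv := by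
    refine ⟨u.inv.map (Function.surjInv (red_surj Q)), ?_⟩
    ext i j : 2
    simp [Function.surjInv_eq]
  have h1 : ra z N ι (V * X) = 1 := by
    apply ra_red_one hE hD hT hz hz1 hc
    rw [Matrix.map_mul, hV, hX, u.inv_val]
  have h2 : ra z N ι (V * X') = 1 := by
    apply ra_red_one hE hD hT hz hz1 hc
    rw [Matrix.map_mul, hV, hX', u.inv_val]
  rw [map_mul] at h1 h2
  calc ra z N ι X = ra z N ι X * (ra z N ι V * ra z N ι X') := by rw [h2, mul_one]
    _ = (ra z N ι V * ra z N ι X) * ra z N ι X' := by ring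
    _ = ra z N ι X' := by rw [h1, one_mul]

lemma dt_odd_of_unit {X : Matrix ι ι (MonoidAlgebra ℤ Q)}
    {u : (Matrix ι ι (MonoidAlgebra (ZMod 2) Q))ˣ} (hX : X.map (red Q) = u.val) :
    Odd (dt Q Q ι X) := by
  obtain ⟨V, hV⟩ : ∃ V : Matrix ι ι (MonoidAlgebra ℤ Q), V.map (red Q) = u.inv := by
    refine ⟨u.inv.map (Function.surjInv (red_surj Q)), ?_⟩
    ext i j : 2
    simp [Function.surjInv_eq]
  obtain ⟨w, hw⟩ := red_matrix (X := V * X) (by rw [Matrix.map_mul, hV, hX, u.inv_val])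
  have h := dt_odd Q w
  rw [← hw, map_mul, Int.odd_mul] at h
  exact h.2

/-- A lift to `ℤ[Q]`. -/
noncomputable def lf (M : Matrix ι ι (MonoidAlgebra (ZMod 2) Q)) :
    Matrix ι ι (MonoidAlgebra ℤ Q) := M.map (Function.surjInv (red_surj Q))

lemma red_lf (M : Matrix ι ι (MonoidAlgebra (ZMod 2) Q)) : (lf M).map (red Q) = M := by
  ext i j : 2
  simp [lf, Function.surjInv_eq]

/-- The homomorphism `GL_ι(F₂[Q]) → (ℤ/2^(N+1))ˣ`. -/
noncomputable def phi (hE : ExplS) (hD : DlogS) (hT : TrcS) (hz : z * z = 1) (hz1 : z ≠ 1)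
    (hc : Nat.card (Subgroup.centralizer {z}) = 2 ^ N) (ι : Type) [Fintype ι] [DecidableEq ι] :
    (Matrix ι ι (MonoidAlgebra (ZMod 2) Q))ˣ →* (ZMod (2 ^ (N + 1)))ˣ where
  toFun u := ⟨ra z N ι (lf u.val), ra z N ι (lf u.inv),
    by
      rw [← map_mul]
      apply ra_red_one hE hD hT hz hz1 hc
      rw [Matrix.map_mul, red_lf, red_lf, u.val_inv],
    by
      rw [← map_mul]
      apply ra_red_one hE hD hT hz hz1 hc
      rw [Matrix.map_mul, red_lf, red_lf, u.inv_val]⟩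
  map_one' := by
    apply Units.ext
    apply ra_red_one hE hD hT hz hz1 hc
    rw [red_lf, Units.val_one]
  map_mul' u v := by
    apply Units.ext
    show ra z N ι (lf (u * v).val) = ra z N ι (lf u.val) * ra z N ι (lf v.val)
    rw [← map_mul]
    apply ra_congr hE hD hT hz hz1 hc (u := u * v)
    · rw [red_lf]
    · rw [Matrix.map_mul, red_lf, red_lf, Units.val_mul]

lemma phi_val (hE : ExplS) (hD : DlogS) (hT : TrcS) (hz : z * z = 1) (hz1 : z ≠ 1)
    (hc : Nat.card (Subgroup.centralizer {z}) = 2 ^ N)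
    (u : (Matrix ι ι (MonoidAlgebra (ZMod 2) Q))ˣ) {X : Matrix ι ι (MonoidAlgebra ℤ Q)}
    (hX : X.map (red Q) = u.val) : (phi hE hD hT hz hz1 hc ι u).val = ra z N ι X :=
  ra_congr hE hD hT hz hz1 hc (u := u) (red_lf _) hX

/-- determinants and reindexing. -/
lemma dt_reindex (Y : Type) [MulAction Q Y] [Fintype Y] [DecidableEq Y] {κ : Type} [Fintype κ]
    [DecidableEq κ] (e : ι ≃ κ) (X : Matrix ι ι (MonoidAlgebra ℤ Q)) :
    dt Q Y κ (Matrix.reindex e e X) = dt Q Y ι X := by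
  rw [dt_apply, dt_apply, ← Matrix.det_reindex_self (e.prodCongr (Equiv.refl Y)) (bigM Q Y X)]
  congr 1

lemma dt_blocks (Y : Type) [MulAction Q Y] [Fintype Y] [DecidableEq Y] {κ : Type} [Fintype κ]
    [DecidableEq κ] (X : Matrix ι ι (MonoidAlgebra ℤ Q)) :
    dt Q Y (ι ⊕ κ) (fromBlocks X 0 0 1) = dt Q Y ι X := by
  rw [dt_apply, dt_apply, ← Matrix.det_reindex_self (Equiv.sumProdDistrib ι κ Y)]
  have h : Matrix.reindex (Equiv.sumProdDistrib ι κ Y) (Equiv.sumProdDistrib ι κ Y)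
      (bigM Q Y (fromBlocks X 0 0 (1 : Matrix κ κ (MonoidAlgebra ℤ Q)))) =
      fromBlocks (bigM Q Y X) 0 0 1 := by
    have h1 : bigM Q Y (1 : Matrix κ κ (MonoidAlgebra ℤ Q)) = 1 := by
      rw [← bigH_apply, map_one]
    rw [← h1]
    ext i j
    rcases i with ⟨i, y⟩ | ⟨i, y⟩ <;> rcases j with ⟨j, y'⟩ | ⟨j, y'⟩
    · simp [bigM, Matrix.comp_apply]
    · simp [bigM, Matrix.comp_apply]
    · simp [bigM, Matrix.comp_apply]
    · rfl
  rw [h, Matrix.det_fromBlocks_zero₂₁, Matrix.det_one, mul_one]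

lemma phi_stab (hE : ExplS) (hD : DlogS) (hT : TrcS) (hz : z * z = 1) (hz1 : z ≠ 1)
    (hc : Nat.card (Subgroup.centralizer {z}) = 2 ^ N) (n m : ℕ) (h : n ≤ m)
    (u : GL (Fin n) (MonoidAlgebra (ZMod 2) Q)) :
    phi hE hD hT hz hz1 hc (Fin m) (stabHom _ n m h u) = phi hE hD hT hz hz1 hc (Fin n) u := by
  apply Units.ext
  rw [phi_val hE hD hT hz hz1 hc (stabHom _ n m h u) (X := stab h (lf u.val))
    (by rw [stab_map, red_lf]; rfl),
    phi_val hE hD hT hz hz1 hc u (red_lf u.val)]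
  rw [ra_apply, ra_apply, stab_eq, dt_reindex, dt_reindex, dt_blocks, dt_blocks]

end

/-- If no `g^r h^s` is conjugate to `z`, the class function `cz` vanishes on powers of
`(1+g)(1+h)`. -/
lemma cz_zero {Q : Type} [Group Q] [Fintype Q] (z : Q) (g h : Q) (hgh : g * h = h * g)
    (hn : ∀ r s : ℕ, ¬ IsConj (g ^ r * h ^ s) z) (j : ℕ) :
    cz z ((Matrix.of fun _ _ : Fin 1 => (1 + MonoidAlgebra.of ℤ Q g) *
        (1 + MonoidAlgebra.of ℤ Q h)) ^ j) = 0 := by
  classical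
  -- the commuting powers
  let m : Multiplicative ℕ × Multiplicative ℕ →* Q :=
    MonoidHom.noncommCoprod (powersHom Q g) (powersHom Q h) (by
      intro a b
      simp only [powersHom_apply]
      exact (show Commute g h from hgh).pow_pow _ _)
  let x : MonoidAlgebra ℤ (Multiplicative ℕ × Multiplicative ℕ) :=
    (1 + MonoidAlgebra.of ℤ _ (Multiplicative.ofAdd 1, 1)) *
      (1 + MonoidAlgebra.of ℤ _ (1, Multiplicative.ofAdd 1))
  have hx : MonoidAlgebra.mapDomainRingHom ℤ m x = (1 + MonoidAlgebra.of ℤ Q g) *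
        (1 + MonoidAlgebra.of ℤ Q h) := by
    have h1 : ∀ p, MonoidAlgebra.mapDomainRingHom ℤ m (MonoidAlgebra.of ℤ _ p) =
        MonoidAlgebra.of ℤ Q (m p) := by
      intro p
      simp
    show MonoidAlgebra.mapDomainRingHom ℤ m ((1 + MonoidAlgebra.of ℤ _ (Multiplicative.ofAdd 1, 1)) *
      (1 + MonoidAlgebra.of ℤ _ (1, Multiplicative.ofAdd 1))) = _
    rw [map_mul, map_add, map_add, map_one, h1, h1]
    simp [m, powersHom_apply]
  have hpow : ∀ j : ℕ, (Matrix.of fun _ _ : Fin 1 => (1 + MonoidAlgebra.of ℤ Q g) *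
        (1 + MonoidAlgebra.of ℤ Q h)) ^ j = Matrix.scalar (Fin 1)
          (MonoidAlgebra.mapDomainRingHom ℤ m (x ^ j)) := by
    intro j
    rw [map_pow, map_pow, hx]
    congr 1
    ext i k
    fin_cases i; fin_cases k
    simp
  rw [hpow, cz]
  apply Finset.sum_eq_zero
  intro i _
  apply Finset.sum_eq_zero
  intro q hq
  rw [Finset.mem_filter] at hq
  by_contra hne
  have h1 : (MonoidAlgebra.mapDomainRingHom ℤ m (x ^ j)).coeff q ≠ 0 := by
    intro h0
    apply hne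
    simpa using h0
  have h2 : ∃ p, m p = q := by
    by_contra hno
    push Not at hno
    apply h1
    show (Finsupp.mapDomain m (x ^ j).coeff) q = 0
    apply Finsupp.mapDomain_notin_range
    rintro ⟨p, hp⟩
    exact hno p hp
  obtain ⟨p, hp⟩ := h2
  apply hn (Multiplicative.toAdd p.1) (Multiplicative.toAdd p.2)
  have h3 : m p = g ^ (Multiplicative.toAdd p.1) * h ^ (Multiplicative.toAdd p.2) := by
    simp [m, powersHom_apply]
  rw [← h3, hp]
  exact hq.2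

end KG.H60
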