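import Pool.Agent.Lib.MP_ea1188_al.KG.H60.Chi3

/-! # [CHIASM] MP_ea1188_al, helper60. -/

set_option autoImplicit false

namespace KG.H60

open Matrix KG

lemma card_arith {N k : ℕ} (hk : 1 ≤ k) (hkN : k + 1 ≤ N) :
    ∃ a, 2 ≤ a ∧ a + k = N + 1 ∧ a + (k - 1) = N := ⟨N + 1 - k, by omega, by omega, by omega⟩

theorem chiAsm : ChiAsmS := by
  intro hE hD hT hC hV Q _ _ z N k hz hz1 hc hkN hk hroot
  classical
  have : Fintype Q := Fintype.ofFinite Q
  have : Fintype (Q ⧸ Subgroup.zpowers z) := Fintype.ofFinite _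
  obtain ⟨a, ha2, hak, hak1⟩ := card_arith hk hkN
  -- the divisibility from [CYC]
  have hcyc : ∀ (n : ℕ) (X : Matrix (Fin n) (Fin n) (MonoidAlgebra ℤ Q)) (j : ℕ), 1 ≤ j →
      (2 : ℤ) ^ (a + padicValNat 2 j) ∣ 2 ^ N * cz z (X ^ j) := by
    intro n X j hj
    have h1 := hC Q z k hk hroot (Fin n) X j hj
    rw [← hak1, pow_add, pow_add, mul_assoc]
    exact mul_dvd_mul_left _ h1
  refine ⟨k1Lift (fun n => phi hE hD hT hz hz1 hc (Fin n)) (phi_stab hE hD hT hz hz1 hc), ?_, ?_⟩
  · intro x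
    obtain ⟨n, u, rfl⟩ := K1_exists _ x
    rw [k1Lift_k1of]
    apply Units.ext
    rw [Units.val_pow_eq_pow_val, phi_val hE hD hT hz hz1 hc u (red_lf u.val), Units.val_one]
    have ho : Odd (dt Q Q (Fin n) (lf u.val)) := dt_odd_of_unit (u := u) (red_lf _)
    obtain ⟨t, ht⟩ := (basic hE hD hT hz hz1 hc (lf u.val - 1)).1 a (by omega)
      (hcyc n (lf u.val - 1))
    rw [add_sub_cancel] at ht
    obtain ⟨t', ht'⟩ := ra_of_eq (N := N) ho (m := 2 ^ a) (t := t) (by linarith)
    obtain ⟨t'', ht''⟩ := pow_one_add a k (by omega) t'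
    rw [ht']
    push_cast
    rw [ht'', hak, two_pow_zero, zero_mul, add_zero]
  · intro g h hgh _ _ u hu
    have hlift : ((Matrix.of fun _ _ : Fin 1 => (1 + MonoidAlgebra.of ℤ Q g) *
        (1 + MonoidAlgebra.of ℤ Q h)) + 1).map (red Q) =
        (Units.map (Matrix.scalar (Fin 1)).toMonoidHom u).val := by
      refine Matrix.ext fun i j => ?_
      fin_cases i; fin_cases j
      have h1 : ((Units.map (Matrix.scalar (Fin 1)).toMonoidHom u).val : Matrix (Fin 1) (Fin 1) _)
          0 0 = u.val := by simp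
      show red Q ((1 + MonoidAlgebra.of ℤ Q g) * (1 + MonoidAlgebra.of ℤ Q h) + 1) = _
      refine Eq.trans ?_ h1.symm
      rw [hu, yel, map_add, map_mul, map_add, map_add, map_one, add_comm]
      simp [red]
    have hval : (k1Lift (fun n => phi hE hD hT hz hz1 hc (Fin n)) (phi_stab hE hD hT hz hz1 hc)
        (k1u _ u)).val = ra z N (Fin 1) (1 + Matrix.of fun _ _ : Fin 1 =>
          (1 + MonoidAlgebra.of ℤ Q g) * (1 + MonoidAlgebra.of ℤ Q h)) := by
      show (k1Lift (fun n => phi hE hD hT hz hz1 hc (Fin n)) (phi_stab hE hD hT hz hz1 hc)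
        (k1of 1 (Units.map (Matrix.scalar (Fin 1)).toMonoidHom u))).val = _
      rw [k1Lift_k1of]
      rw [add_comm] at hlift
      exact phi_val hE hD hT hz hz1 hc _ hlift
    have ho : Odd (dt Q Q (Fin 1) (1 + Matrix.of fun _ _ : Fin 1 =>
          (1 + MonoidAlgebra.of ℤ Q g) * (1 + MonoidAlgebra.of ℤ Q h))) := by
      rw [add_comm] at hlift
      exact dt_odd_of_unit hlift
    constructor
    · intro hconj hone
      obtain ⟨hV1, hV2⟩ := hV Q z k g h hk hgh hconj
      have hM : 1 ≤ 2 ^ (k - 1) := Nat.one_le_two_pow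
      obtain ⟨s, hs⟩ := (basic hE hD hT hz hz1 hc (Matrix.of fun _ _ : Fin 1 =>
          (1 + MonoidAlgebra.of ℤ Q g) * (1 + MonoidAlgebra.of ℤ Q h))).2.1 a (2 ^ (k - 1)) ha2 hM
        (hcyc 1 _)
        (by
          intro j hj hjM
          have h1 := hV1 j hj hjM
          rw [show (2 : ℤ) ^ (a + padicValNat 2 j + 1) = 2 ^ a * 2 ^ (padicValNat 2 j + 1) by ring,
            ← hak1, pow_add 2 a (k - 1), mul_assoc]
          exact mul_dvd_mul_left _ h1)
        (by
          rw [hV2, mul_one, padicValNat.prime_pow, hak1]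
          intro hd
          have h3 := Int.natAbs_dvd_natAbs.2 hd
          rw [Int.natAbs_pow, Int.natAbs_pow] at h3
          have h4 := (Nat.pow_dvd_pow_iff_le_right (by norm_num)).1 h3
          omega)
      obtain ⟨t', ht'⟩ := ra_of_eq (N := N) ho (m := 1) (t := 2 ^ a * dt Q Q (Fin 1)
        (1 + Matrix.of fun _ _ : Fin 1 =>
          (1 + MonoidAlgebra.of ℤ Q g) * (1 + MonoidAlgebra.of ℤ Q h)) + 2 ^ (a + 1) * s)
        (by linarith)
      -- explicit value
      have hval2 : ∃ t : ZMod (2 ^ (N + 1)), ra z N (Fin 1) (1 + Matrix.of fun _ _ : Fin 1 =>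
          (1 + MonoidAlgebra.of ℤ Q g) * (1 + MonoidAlgebra.of ℤ Q h)) =
          1 + 2 ^ a * (1 + 2 * t) := by
        set d0 := dt Q Q (Fin 1) (1 + Matrix.of fun _ _ : Fin 1 =>
          (1 + MonoidAlgebra.of ℤ Q g) * (1 + MonoidAlgebra.of ℤ Q h)) with hd0
        have hu0 := isUnit_of_odd N ho
        refine ⟨s * Ring.inverse ((d0 : ℤ) : ZMod (2 ^ (N + 1))), ?_⟩
        have h6 : dt Q (Q ⧸ Subgroup.zpowers z) (Fin 1) (1 + Matrix.of fun _ _ : Fin 1 =>
          (1 + MonoidAlgebra.of ℤ Q g) * (1 + MonoidAlgebra.of ℤ Q h)) ^ 2 =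
          d0 + 2 ^ a * d0 + 2 ^ (a + 1) * s := by linarith
        rw [ra_apply, h6]
        push_cast
        rw [add_mul, add_mul, mul_assoc (2 ^ a) _ _, Ring.mul_inverse_cancel _ hu0]
        ring
      obtain ⟨t, ht⟩ := hval2
      obtain ⟨t2, ht2⟩ := pow_one_add' a (k - 1) ha2 t
      have h7 := congrArg Units.val hone
      rw [Units.val_pow_eq_pow_val, hval, ht, ht2, hak1, Units.val_one] at h7
      apply two_pow_ne_zero N
      have h8 : (2 : ZMod (2 ^ (N + 1))) ^ N * (1 + 2 * t2) = 0 := by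
        have := h7
        rwa [add_eq_left] at this
      have h9 : (2 : ZMod (2 ^ (N + 1))) ^ N * (2 * t2) = 0 := by
        rw [← mul_assoc, ← pow_succ, two_pow_zero, zero_mul]
      rw [mul_add, mul_one, h9, add_zero] at h8
      exact h8
    · intro hconj
      apply Units.ext
      rw [hval, Units.val_one]
      have h3 := (basic hE hD hT hz hz1 hc (Matrix.of fun _ _ : Fin 1 =>
          (1 + MonoidAlgebra.of ℤ Q g) * (1 + MonoidAlgebra.of ℤ Q h))).2.2
        (fun j _ => cz_zero z g h hgh hconj j)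
      rw [ra_apply, h3]
      exact Ring.mul_inverse_cancel _ (isUnit_of_odd N ho)

end KG.H60
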