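import Pool.Agent.Lib.MP_ea1188_al.KG.IfaceB

/-! # [COUNT] and [YEL]; MP_ea1188_al, helper60. -/

set_option autoImplicit false

namespace KG.H60

open KG

theorem count : CountS := by
  intro R _ _
  have h1 : ∀ n : ℕ, Countable (GL (Fin n) R) := by
    intro n
    have h2 : Countable (Matrix (Fin n) (Fin n) R) :=
      inferInstanceAs (Countable (Fin n → Fin n → R))
    exact Function.Injective.countable (f := fun u : GL (Fin n) R => u.val)
      (fun u v h => Units.ext h)
  exact Function.Surjective.countable (f := fun p : Σ n : ℕ, GL (Fin n) R => k1of p.1 p.2)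
    (fun x => by
      obtain ⟨n, u, hu⟩ := K1_exists R x
      exact ⟨⟨n, u⟩, hu⟩)

theorem yelS : YelS := by
  intro Γ _ g h k hgh hg hh
  set A := MonoidAlgebra (ZMod 2) Γ
  haveI : CharP A 2 := by
    refine (CharP.charP_iff_prime_eq_zero Nat.prime_two).2 ?_
    have := map_natCast (algebraMap (ZMod 2) A) 2
    rw [← this]
    have h2 : ((2 : ℕ) : ZMod 2) = 0 := by decide
    rw [h2, map_zero]
  set x : A := MonoidAlgebra.of (ZMod 2) Γ g with hx
  set y : A := MonoidAlgebra.of (ZMod 2) Γ h with hy
  have hxy : Commute x y := by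
    show x * y = y * x
    rw [hx, hy, ← map_mul, hgh, map_mul]
  have hx1 : (1 + x) ^ (2 ^ k) = 0 := by
    rw [add_pow_char_pow_of_commute (p := 2) (n := k) (h := Commute.one_left x), one_pow, hx, ← map_pow, hg,
      map_one]
    exact CharTwo.add_self_eq_zero 1
  have hc : Commute (1 + x) (1 + y) :=
    (Commute.one_left _).add_left (((Commute.one_right x)).add_right hxy)
  show (1 + (1 + x) * (1 + y)) ^ (2 ^ k) = 1
  rw [add_pow_char_pow_of_commute (p := 2) (n := k) (h := Commute.one_left _), one_pow, hc.mul_pow, hx1, zero_mul,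
    add_zero]

end KG.H60
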