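import Pool.Agent.Lib.MP_ea1188_al.KG.IfaceD

/-! # [ELTASM] MP_ea1188_al, helper60. -/

set_option autoImplicit false

namespace KG.H60

open KG

/-! ### Rigid copies -/

/-- Perm acting below `0`. -/
def B0 : Equiv.Perm (List Bool) →* Equiv.Perm (List Bool) :=
  (Wr.act (MonoidHom.id _)).comp Wr.inl
/-- Perm acting below `1`. -/
def B1 : Equiv.Perm (List Bool) →* Equiv.Perm (List Bool) :=
  (Wr.act (MonoidHom.id _)).comp Wr.inr

lemma B01 (p q : Equiv.Perm (List Bool)) : Commute (B0 p) (B1 q) := by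
  have h : Commute (Wr.inl p) (Wr.inr q) := by
    show Wr.inl p * Wr.inr q = Wr.inr q * Wr.inl p
    ext <;> simp
  exact h.map (Wr.act (MonoidHom.id _))

section
variable (F0 F1 : LL → LL) (h0 : ∀ x, psi (F0 x) = ⟨x, 1, false⟩)
  (h1 : ∀ x, psi (F1 x) = ⟨1, x, false⟩)

include h0 in
lemma pi0_F0 (x : LL) : pi0 (F0 x) = B0 (pi0 x) := by
  have h := DFunLike.congr_fun act_psi (F0 x : Lam)
  rw [← h]
  show Wr.act pi0 (psi (F0 x)) = Wr.act (MonoidHom.id _) (Wr.inl (pi0 x))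
  rw [h0]
  have h2 := act_map pi0 (MonoidHom.id _) (⟨(x : Lam), 1, false⟩ : Wr Lam)
  rw [MonoidHom.id_comp] at h2
  rw [← h2]
  congr 1

include h1 in
lemma pi0_F1 (x : LL) : pi0 (F1 x) = B1 (pi0 x) := by
  have h := DFunLike.congr_fun act_psi (F1 x : Lam)
  rw [← h]
  show Wr.act pi0 (psi (F1 x)) = Wr.act (MonoidHom.id _) (Wr.inr (pi0 x))
  rw [h1]
  have h2 := act_map pi0 (MonoidHom.id _) (⟨1, (x : Lam), false⟩ : Wr Lam)
  rw [MonoidHom.id_comp] at h2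
  rw [← h2]
  congr 1

include h0 in
lemma qN_F0 (n : ℕ) (x : LL) : qN (n + 1) (F0 x) = (⟨qN n x, 1, false⟩ : Wr (QQ n)) := by
  show Wr.map (qN n) (psi (F0 x)) = _
  rw [h0]
  ext <;> simp

include h1 in
lemma qN_F1 (n : ℕ) (x : LL) : qN (n + 1) (F1 x) = (⟨1, qN n x, false⟩ : Wr (QQ n)) := by
  show Wr.map (qN n) (psi (F1 x)) = _
  rw [h1]
  ext <;> simp

include h0 h1 in
lemma comm_E (x y : LL) (i : ℕ) :
    Commute (pi0 (F1^[i] (F0 x) : LL)) (pi0 (F1^[i] (F1 y) : LL)) := by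
  induction i with
  | zero =>
    simp only [Function.iterate_zero, id]
    rw [pi0_F0 F0 h0, pi0_F1 F1 h1]
    exact B01 _ _
  | succ i ih =>
    rw [Function.iterate_succ_apply', Function.iterate_succ_apply', pi0_F1 F1 h1, pi0_F1 F1 h1]
    exact ih.map B1

lemma inl_pow {A : Type} [Group A] (x : A) (r : ℕ) :
    (⟨x, 1, false⟩ : Wr A) ^ r = ⟨x ^ r, 1, false⟩ :=
  (map_pow Wr.inl x r).symm

lemma inr_pow {A : Type} [Group A] (x : A) (r : ℕ) :
    (⟨1, x, false⟩ : Wr A) ^ r = ⟨1, x ^ r, false⟩ :=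
  (map_pow Wr.inr x r).symm

include h0 h1 in
lemma dis (hMv : MvS) (x y : LL) (i : ℕ) : ∀ (n r s : ℕ),
    mv n (qN n (F1^[i] (F0 x) : LL) ^ r * qN n (F1^[i] (F1 y) : LL) ^ s) =
      mv n (qN n (F1^[i] (F0 x) : LL) ^ r) + mv n (qN n (F1^[i] (F1 y) : LL) ^ s) := by
  induction i with
  | zero =>
    intro n r s
    simp only [Function.iterate_zero, id]
    rcases n with _ | n
    · rfl
    · have e0 : qN (n + 1) (F0 x) ^ r = (⟨qN n x ^ r, 1, false⟩ : Wr (QQ n)) := by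
        rw [qN_F0 F0 h0]; exact inl_pow _ _
      have e1 : qN (n + 1) (F1 y) ^ s = (⟨1, qN n y ^ s, false⟩ : Wr (QQ n)) := by
        rw [qN_F1 F1 h1]; exact inr_pow _ _
      rw [e0, e1]
      have e2 : ((⟨qN n x ^ r, 1, false⟩ : Wr (QQ n)) * ⟨1, qN n y ^ s, false⟩ : Wr (QQ n)) =
          ⟨qN n x ^ r, qN n y ^ s, false⟩ := by
        ext <;> simp
      have hm1 : mv n 1 = 0 := ((hMv n).2.1 1).2 rfl
      calc mv (n + 1) ((⟨qN n x ^ r, 1, false⟩ : Wr (QQ n)) * ⟨1, qN n y ^ s, false⟩ : Wr (QQ n))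
          = mv (n + 1) (⟨qN n x ^ r, qN n y ^ s, false⟩ : Wr (QQ n)) := congrArg _ e2
        _ = mv n (qN n x ^ r) + mv n (qN n y ^ s) := by simp [mv]
        _ = _ := by simp [mv, hm1]
  | succ i ih =>
    intro n r s
    rw [Function.iterate_succ_apply', Function.iterate_succ_apply']
    rcases n with _ | n
    · rfl
    · have e0 : ∀ (w : LL) (r : ℕ), qN (n + 1) (F1 w) ^ r =
          (⟨1, qN n w ^ r, false⟩ : Wr (QQ n)) := by
        intro w r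
        rw [qN_F1 F1 h1]; exact inr_pow _ _
      rw [e0, e0]
      have hm1 : mv n 1 = 0 := ((hMv n).2.1 1).2 rfl
      have e3 : ∀ w : QQ n, mv (n + 1) (⟨1, w, false⟩ : Wr (QQ n)) = mv n w := by
        intro w
        simp [mv, hm1]
      rw [e3, e3, ← ih n r s, ← e3]
      have e2 : ((⟨1, qN n (F1^[i] (F0 x) : LL) ^ r, false⟩ : Wr (QQ n)) *
          ⟨1, qN n (F1^[i] (F1 y) : LL) ^ s, false⟩ : Wr (QQ n)) =
          ⟨1, qN n (F1^[i] (F0 x) : LL) ^ r * qN n (F1^[i] (F1 y) : LL) ^ s, false⟩ := by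
        ext <;> simp
      exact congrArg (mv (n + 1)) e2

include h0 h1 in
lemma dis1 (hMv : MvS) (x y : LL) (i n r s : ℕ)
    (h : qN n (F1^[i] (F0 x) : LL) ^ r * qN n (F1^[i] (F1 y) : LL) ^ s = 1) :
    qN n (F1^[i] (F0 x) : LL) ^ r = 1 ∧ qN n (F1^[i] (F1 y) : LL) ^ s = 1 := by
  have h2 := dis F0 F1 h0 h1 hMv x y i n r s
  rw [h, ((hMv n).2.1 1).2 rfl] at h2
  exact ⟨((hMv n).2.1 _).1 (by omega), ((hMv n).2.1 _).1 (by omega)⟩

include h0 h1 in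
lemma root_E (hW : WrrS) (γ : LL) (k n0 : ℕ) (hk : 1 ≤ k)
    (hγ : ∀ n, n0 ≤ n → ∀ w : QQ n, w ^ (2 ^ k) ≠ qN n γ ^ (2 ^ (k - 1))) (i : ℕ) :
    ∀ n, i + 1 + n0 ≤ n → ∀ w : QQ n, w ^ (2 ^ k) ≠
      qN n (F1^[i] (F0 γ) : LL) ^ (2 ^ (k - 1)) := by
  have hone : ∀ {A : Type} [Group A] (x : A), (∀ w : A, w ^ (2 ^ k) ≠ x) → x ≠ 1 := by
    intro A _ x hx h
    exact hx 1 (by rw [one_pow, h])
  induction i with
  | zero =>
    intro n hn w hw
    simp only [Function.iterate_zero, id] at hw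
    obtain ⟨m, rfl⟩ : ∃ m, n = m + 1 := ⟨n - 1, by omega⟩
    have hγm := hγ m (by omega)
    have e0 : qN (m + 1) (F0 γ) ^ (2 ^ (k - 1)) =
        (⟨qN m γ ^ (2 ^ (k - 1)), 1, false⟩ : Wr (QQ m)) := by
      rw [qN_F0 F0 h0]; exact inl_pow _ _
    have hw' : (w : Wr (QQ m)) ^ (2 ^ k) = (⟨qN m γ ^ (2 ^ (k - 1)), 1, false⟩ : Wr (QQ m)) :=
      hw.trans e0
    obtain ⟨v, hv⟩ := (hW (QQ m)).1 _ k (hone _ hγm) ⟨w, hw'⟩
    exact hγm v hv
  | succ i ih =>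
    intro n hn w hw
    obtain ⟨m, rfl⟩ : ∃ m, n = m + 1 := ⟨n - 1, by omega⟩
    have hγm := ih m (by omega)
    rw [Function.iterate_succ_apply'] at hw
    have e0 : qN (m + 1) (F1 (F1^[i] (F0 γ))) ^ (2 ^ (k - 1)) =
        (⟨1, qN m (F1^[i] (F0 γ) : LL) ^ (2 ^ (k - 1)), false⟩ : Wr (QQ m)) := by
      rw [qN_F1 F1 h1]; exact inr_pow _ _
    have hw' : (w : Wr (QQ m)) ^ (2 ^ k) =
        (⟨1, qN m (F1^[i] (F0 γ) : LL) ^ (2 ^ (k - 1)), false⟩ : Wr (QQ m)) := hw.trans e0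
    obtain ⟨v, hv⟩ := (hW (QQ m)).2.1 _ k (hone _ hγm) ⟨w, hw'⟩
    exact hγm v hv

include h0 h1 in
lemma mu_eq (hMv : MvS) (γ : LL) (r i : ℕ) : ∀ m n, n = m + 1 + i →
    mv n (qN n (F1^[i] (F0 γ) : LL) ^ r) = mv m (qN m γ ^ r) := by
  induction i with
  | zero =>
    intro m n hn
    subst hn
    simp only [Function.iterate_zero, id]
    have e0 : qN (m + 1) (F0 γ) ^ r = (⟨qN m γ ^ r, 1, false⟩ : Wr (QQ m)) := by
      rw [qN_F0 F0 h0]; exact inl_pow _ _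
    have hm1 : mv m 1 = 0 := ((hMv m).2.1 1).2 rfl
    show mv (m + 1) (qN (m + 1) (F0 γ) ^ r) = _
    rw [e0]
    simp [mv, hm1]
  | succ i ih =>
    intro m n hn
    subst hn
    rw [Function.iterate_succ_apply']
    have e0 : qN (m + 1 + i + 1) (F1 (F1^[i] (F0 γ))) ^ r =
        (⟨1, qN (m + 1 + i) (F1^[i] (F0 γ) : LL) ^ r, false⟩ : Wr (QQ (m + 1 + i))) := by
      rw [qN_F1 F1 h1]; exact inr_pow _ _
    have hm1 : mv (m + 1 + i) 1 = 0 := ((hMv (m + 1 + i)).2.1 1).2 rfl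
    show mv (m + 1 + i + 1) (qN (m + 1 + i + 1) (F1 (F1^[i] (F0 γ))) ^ r) = _
    rw [e0, ← ih m _ rfl]
    simp [mv, hm1]

end

/-- Powers in a `2`-group of order `2^k`: the possible values of `g^r` when `g^(2r) = 1`. -/
lemma half {A : Type} [Group A] {g : A} {k r : ℕ} (hk : 1 ≤ k) (hg : g ^ (2 ^ k) = 1)
    (hg1 : g ^ (2 ^ (k - 1)) ≠ 1) (h : g ^ (2 * r) = 1) :
    (r % 2 ^ k = 0 ∧ g ^ r = 1) ∨ (r % 2 ^ k = 2 ^ (k - 1) ∧ g ^ r = g ^ (2 ^ (k - 1))) := by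
  obtain ⟨j, rfl⟩ : ∃ j, k = j + 1 := ⟨k - 1, by omega⟩
  simp only [Nat.add_sub_cancel] at *
  have ho : orderOf g = 2 ^ (j + 1) := orderOf_eq_prime_pow hg1 hg
  have h2 : 2 ^ (j + 1) ∣ 2 * r := by
    rw [← ho]
    exact orderOf_dvd_of_pow_eq_one h
  have h3 : 2 ^ j ∣ r := by
    rw [pow_succ, mul_comm] at h2
    exact Nat.dvd_of_mul_dvd_mul_left (by norm_num) h2
  obtain ⟨t, rfl⟩ := h3
  rcases Nat.even_or_odd t with ⟨u, hu⟩ | ⟨u, hu⟩
  · left
    have h4 : 2 ^ j * t = 2 ^ (j + 1) * u := by rw [hu]; ring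
    rw [h4]
    exact ⟨Nat.mul_mod_right _ _, by rw [pow_mul, hg, one_pow]⟩
  · right
    have h4 : 2 ^ j * t = 2 ^ j + 2 ^ (j + 1) * u := by rw [hu]; ring
    rw [h4]
    constructor
    · rw [Nat.add_mul_mod_self_left, Nat.mod_eq_of_lt]
      exact Nat.pow_lt_pow_right (by norm_num) (by omega)
    · rw [pow_add, pow_mul g (2 ^ (j + 1)), hg, one_pow, mul_one]

theorem eltAsm : EltAsmS := by
  intro hL hQB hQF hW hMv hG k J hk
  obtain ⟨γ', hγL, n0, hγ1, hγ2⟩ := hG k hk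
  choose f0 hf0 hf0' using fun x (hx : x ∈ LL) => (hL x hx).1
  choose f1 hf1 hf1' using fun x (hx : x ∈ LL) => (hL x hx).2
  let F0 : LL → LL := fun x => ⟨f0 x.1 x.2, hf0 x.1 x.2⟩
  let F1 : LL → LL := fun x => ⟨f1 x.1 x.2, hf1 x.1 x.2⟩
  have h0 : ∀ x, psi (F0 x) = ⟨x, 1, false⟩ := fun x => hf0' x.1 x.2
  have h1 : ∀ x, psi (F1 x) = ⟨1, x, false⟩ := fun x => hf1' x.1 x.2
  clear_value F0 F1
  let γ : LL := ⟨γ', hγL⟩
  have hγ2' : ∀ n, n0 ≤ n → ∀ w : QQ n, w ^ (2 ^ k) ≠ qN n γ ^ (2 ^ (k - 1)) := hγ2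
  set n := n0 + 2 * J + 1 with hn
  clear_value n
  obtain ⟨hfin, m0, hm0⟩ := hQB n
  obtain ⟨q, hq⟩ := hQF n
  have hgr : ∀ w : Lam, pi0 w ∈ Grig := fun w => by rw [← range_pi0]; exact ⟨w, rfl⟩
  let E : ℕ → LL := fun i => F1^[i] (F0 γ)
  let gE : ℕ → Grig := fun i => ⟨pi0 (E i), hgr _⟩
  have hqE : ∀ i, q (gE i) = qN n (E i) := fun i => hq _ _
  have hEadd : ∀ i d, E (i + (d + 1)) = F1^[i] (F1 (E d)) := by
    intro i d
    show F1^[i + (d + 1)] (F0 γ) = F1^[i] (F1 (F1^[d] (F0 γ)))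
    rw [Function.iterate_add_apply, Function.iterate_succ_apply']
  have hpE : ∀ i, pi0 (E i) ^ (2 ^ k) = 1 := by
    intro i
    induction i with
    | zero =>
      show pi0 (F0 γ) ^ (2 ^ k) = 1
      rw [pi0_F0 F0 h0, ← map_pow, show pi0 (γ : Lam) ^ (2 ^ k) = 1 from hγ1, map_one]
    | succ i ih =>
      show pi0 (F1^[i + 1] (F0 γ) : LL) ^ (2 ^ k) = 1
      rw [Function.iterate_succ_apply', pi0_F1 F1 h1, ← map_pow]
      have ih' : pi0 (F1^[i] (F0 γ) : LL) ^ (2 ^ k) = 1 := ih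
      rw [ih', map_one]
  have hgE : ∀ i, gE i ^ (2 ^ k) = 1 := fun i => Subtype.ext (hpE i)
  have hqE1 : ∀ i, qN n (E i) ^ (2 ^ k) = 1 := fun i => by
    rw [← hqE, ← map_pow, hgE, map_one]
  have hcomm : ∀ i d, Commute (gE i) (gE (i + (d + 1))) := by
    intro i d
    apply Subtype.ext
    show pi0 (E i) * pi0 (E (i + (d + 1))) = pi0 (E (i + (d + 1))) * pi0 (E i)
    rw [hEadd]
    exact comm_E F0 F1 h0 h1 γ (E d) i
  have hcommq : ∀ i d, Commute (qN n (E i)) (qN n (E (i + (d + 1)))) := by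
    intro i d
    rw [← hqE, ← hqE]
    exact (hcomm i d).map q
  have hdis : ∀ i d r s, mv n (qN n (E i) ^ r * qN n (E (i + (d + 1))) ^ s) =
      mv n (qN n (E i) ^ r) + mv n (qN n (E (i + (d + 1))) ^ s) := by
    intro i d r s
    rw [hEadd]
    exact dis F0 F1 h0 h1 hMv γ (E d) i n r s
  have hdis1 : ∀ i d r s, qN n (E i) ^ r * qN n (E (i + (d + 1))) ^ s = 1 →
      qN n (E i) ^ r = 1 ∧ qN n (E (i + (d + 1))) ^ s = 1 := by
    intro i d r s h
    rw [hEadd] at h ⊢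
    exact dis1 F0 F1 h0 h1 hMv γ (E d) i n r s h
  have hroot : ∀ i, i < 2 * J + 1 → ∀ w : QQ n, w ^ (2 ^ k) ≠ qN n (E i) ^ (2 ^ (k - 1)) := by
    intro i hi
    exact root_E F0 F1 h0 h1 hW γ k n0 hk hγ2' i n (by omega)
  have hne : ∀ i, i < 2 * J + 1 → qN n (E i) ^ (2 ^ (k - 1)) ≠ 1 := by
    intro i hi h
    exact hroot i hi 1 (by rw [one_pow, h])
  -- the sequence `μ`
  let μ : ℕ → ℕ := fun i => mv n (qN n (E i) ^ (2 ^ (k - 1)))
  have hμpos : ∀ i, i < 2 * J + 1 → 0 < μ i := by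
    intro i hi
    rw [Nat.pos_iff_ne_zero]
    intro h
    exact hne i hi (((hMv n).2.1 _).1 h)
  have hμ2 : ∀ i, i + 1 < 2 * J + 1 → 2 * μ (i + 1) ≤ μ i := by
    intro i hi
    obtain ⟨m, hm⟩ : ∃ m, n = m + 1 + (i + 1) := ⟨n - 1 - (i + 1), by omega⟩
    have e1 : μ (i + 1) = mv m (qN m γ ^ (2 ^ (k - 1))) :=
      mu_eq F0 F1 h0 h1 hMv γ _ (i + 1) m n hm
    have e2 : μ i = mv (m + 1) (qN (m + 1) γ ^ (2 ^ (k - 1))) :=
      mu_eq F0 F1 h0 h1 hMv γ _ i (m + 1) n (by omega)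
    rw [e1, e2, ← map_pow, ← map_pow]
    exact (hMv m).2.2 _
  have hμlt : ∀ i d, i + (d + 1) < 2 * J + 1 → 2 * μ (i + (d + 1)) ≤ μ i := by
    intro i d
    induction d with
    | zero => exact hμ2 i
    | succ d ih =>
      intro h
      have a1 := ih (by omega)
      have a2 := hμ2 (i + (d + 1)) (by omega)
      have a3 : i + (d + 1) + 1 = i + (d + 1 + 1) := by omega
      rw [a3] at a2
      omega
  have hμlt' : ∀ i i', i < i' → i' < 2 * J + 1 → 2 * μ i' ≤ μ i := by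
    intro i i' hii hi'
    obtain ⟨d, rfl⟩ : ∃ d, i' = i + (d + 1) := ⟨i' - i - 1, by omega⟩
    exact hμlt i d hi'
  -- analysis of conjugates
  have hanal : ∀ i r s (y : QQ n), y * y = 1 → i + 1 < 2 * J + 1 →
      IsConj (qN n (E i) ^ r * qN n (E (i + 1)) ^ s) y →
      ((r % 2 ^ k = 0 ∧ qN n (E i) ^ r = 1) ∨
        (r % 2 ^ k = 2 ^ (k - 1) ∧ qN n (E i) ^ r = qN n (E i) ^ (2 ^ (k - 1)))) ∧
      ((s % 2 ^ k = 0 ∧ qN n (E (i + 1)) ^ s = 1) ∨
        (s % 2 ^ k = 2 ^ (k - 1) ∧ qN n (E (i + 1)) ^ s = qN n (E (i + 1)) ^ (2 ^ (k - 1)))) ∧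
      mv n y = mv n (qN n (E i) ^ r) + mv n (qN n (E (i + 1)) ^ s) := by
    intro i r s y hy hi hc
    have hmv := (hMv n).1 _ _ hc
    rw [hdis i 0 r s] at hmv
    have hsq : (qN n (E i) ^ r * qN n (E (i + 1)) ^ s) * (qN n (E i) ^ r * qN n (E (i + 1)) ^ s)
        = 1 := by
      obtain ⟨c, hc⟩ := isConj_iff.1 hc
      have : c * ((qN n (E i) ^ r * qN n (E (i + 1)) ^ s) *
          (qN n (E i) ^ r * qN n (E (i + 1)) ^ s)) * c⁻¹ = 1 := by
        rw [← hy, ← hc]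
        group
      exact conj_eq_one_iff.1 this
    have hcm : Commute (qN n (E i)) (qN n (E (i + 1))) := hcommq i 0
    have hsq2 : qN n (E i) ^ (2 * r) * qN n (E (i + 1)) ^ (2 * s) = 1 := by
      rw [← hsq, two_mul, two_mul, pow_add, pow_add]
      have hcm2 := hcm.pow_pow r s
      have := hcm2.eq
      calc qN n (E i) ^ r * qN n (E i) ^ r * (qN n (E (i + 1)) ^ s * qN n (E (i + 1)) ^ s)
          = qN n (E i) ^ r * (qN n (E i) ^ r * qN n (E (i + 1)) ^ s) * qN n (E (i + 1)) ^ s := by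
            group
        _ = qN n (E i) ^ r * (qN n (E (i + 1)) ^ s * qN n (E i) ^ r) * qN n (E (i + 1)) ^ s := by
            rw [this]
        _ = _ := by group
    obtain ⟨hr, hs⟩ := hdis1 i 0 _ _ hsq2
    exact ⟨half hk (hqE1 i) (hne i (by omega)) hr, half hk (hqE1 (i + 1)) (hne (i + 1) hi) hs,
      hmv.symm⟩
  have hz2 : ∀ i, qN n (E i) ^ (2 ^ (k - 1)) * qN n (E i) ^ (2 ^ (k - 1)) = 1 := by
    intro i
    rw [← pow_add, ← two_mul, ← pow_succ', Nat.sub_add_cancel hk, hqE1]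
  have hmv1 : mv n 1 = 0 := ((hMv n).2.1 1).2 rfl
  have hcard : ∀ i, i + 1 < 2 * J + 1 → ∃ N : ℕ,
      Nat.card (Subgroup.centralizer {qN n (E i) ^ (2 ^ (k - 1))}) = 2 ^ N ∧ k + 1 ≤ N := by
    intro i hi
    set C := Subgroup.centralizer {qN n (E i) ^ (2 ^ (k - 1))} with hC
    have hdvd : Nat.card C ∣ 2 ^ m0 := by
      rw [← hm0]
      exact Subgroup.card_subgroup_dvd_card C
    obtain ⟨N, _, hN⟩ := (Nat.dvd_prime_pow Nat.prime_two).1 hdvd
    refine ⟨N, hN, ?_⟩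
    by_contra hlt
    have hcm : Commute (qN n (E i)) (qN n (E (i + 1))) := hcommq i 0
    have hg : Subgroup.zpowers (qN n (E i)) ≤ C := by
      rw [Subgroup.zpowers_le, hC, Subgroup.mem_centralizer_iff]
      intro x hx
      rw [Set.mem_singleton_iff] at hx
      rw [hx]
      exact (Commute.refl _).pow_left _
    have hh : qN n (E (i + 1)) ∈ C := by
      rw [hC, Subgroup.mem_centralizer_iff]
      intro x hx
      rw [Set.mem_singleton_iff] at hx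
      rw [hx]
      exact hcm.pow_left _
    have hord : orderOf (qN n (E i)) = 2 ^ k := by
      obtain ⟨j, rfl⟩ : ∃ j, k = j + 1 := ⟨k - 1, by omega⟩
      exact orderOf_eq_prime_pow (hne i (by omega)) (hqE1 i)
    have hcz : Nat.card (Subgroup.zpowers (qN n (E i))) = 2 ^ k := by
      rw [Nat.card_zpowers, hord]
    have hCfin : Finite C := inferInstance
    have heq : Subgroup.zpowers (qN n (E i)) = C := by
      apply Subgroup.eq_of_le_of_card_ge hg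
      rw [hN, hcz]
      exact Nat.pow_le_pow_right (by norm_num) (by omega)
    rw [← heq] at hh
    have hfo : IsOfFinOrder (qN n (E i)) := isOfFinOrder_of_finite _
    rw [← hfo.mem_powers_iff_mem_zpowers] at hh
    obtain ⟨t, ht⟩ := hh
    have ht' : qN n (E i) ^ t = qN n (E (i + 1)) := ht
    have h5 : qN n (E i) ^ t * qN n (E (i + 1)) ^ (2 ^ k - 1) = 1 := by
      rw [ht', ← pow_succ', Nat.sub_add_cancel Nat.one_le_two_pow, hqE1]
    have h6 := (hdis1 i 0 _ _ h5).1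
    rw [ht'] at h6
    apply hne (i + 1) hi
    rw [h6, one_pow]
  choose Nf hNf using hcard
  refine ⟨QQ n, inferInstance, hfin, q, fun j => gE (2 * j), fun j => gE (2 * j + 1),
    fun j => Nf (2 * j) (by have := j.2; omega), ?_, ?_, ?_, ?_, ?_, ?_⟩
  · intro j
    exact ⟨hcomm (2 * j) 0, hgE _, hgE _⟩
  · intro j
    rw [hqE]
    exact hne _ (by have := j.2; omega)
  · intro j
    rw [hqE]
    exact hNf (2 * j) (by have := j.2; omega)
  · intro j w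
    rw [hqE]
    exact hroot _ (by have := j.2; omega) w
  · intro j r s
    have hj := j.2
    rw [hqE, hqE]
    constructor
    · intro hc
      obtain ⟨h5, h6, h7⟩ := hanal (2 * j) r s _ (hz2 _) (by omega) hc
      have p1 := hμpos (2 * j) (by omega)
      have p2 := hμpos (2 * j + 1) (by omega)
      have p3 := hμ2 (2 * j) (by omega)
      have p4 : mv n (qN n (E (2 * j)) ^ (2 ^ (k - 1))) = μ (2 * j) := rfl
      have p5 : mv n (qN n (E (2 * j + 1)) ^ (2 ^ (k - 1))) = μ (2 * j + 1) := rfl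
      rcases h5 with ⟨h5, h5'⟩ | ⟨h5, h5'⟩ <;> rcases h6 with ⟨h6, h6'⟩ | ⟨h6, h6'⟩
      · rw [h5', h6', hmv1, p4] at h7
        omega
      · rw [h5', h6', hmv1, p4, p5] at h7
        omega
      · exact ⟨h5, h6⟩
      · rw [h5', h6', p4, p5] at h7
        omega
    · rintro ⟨hr, hs⟩
      have e1 : qN n (E (2 * j)) ^ r = qN n (E (2 * j)) ^ (2 ^ (k - 1)) := by
        rw [← Nat.div_add_mod r (2 ^ k), hr, pow_add, pow_mul, hqE1, one_pow, one_mul]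
      have e2 : qN n (E (2 * j + 1)) ^ s = 1 := by
        rw [← Nat.div_add_mod s (2 ^ k), hs, pow_add, pow_mul, hqE1, one_pow, one_mul, pow_zero]
      rw [e1, e2, mul_one]
  · intro i j hij r s hc
    have hj := j.2
    have hi := i.2
    rw [hqE, hqE, hqE] at hc
    obtain ⟨h5, h6, h7⟩ := hanal (2 * j) r s _ (hz2 _) (by omega) hc
    have p0 := hμpos (2 * i) (by omega)
    have p1 := hμpos (2 * j) (by omega)
    have p2 := hμpos (2 * j + 1) (by omega)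
    have p3 := hμ2 (2 * j) (by omega)
    have p4 : mv n (qN n (E (2 * j)) ^ (2 ^ (k - 1))) = μ (2 * j) := rfl
    have p5 : mv n (qN n (E (2 * j + 1)) ^ (2 ^ (k - 1))) = μ (2 * j + 1) := rfl
    have p6 : mv n (qN n (E (2 * i)) ^ (2 ^ (k - 1))) = μ (2 * i) := rfl
    have hij' : (i : ℕ) ≠ j := fun h => hij (Fin.ext h)
    have p7 : 2 * μ (2 * j) ≤ μ (2 * i) ∨ (2 * μ (2 * i) ≤ μ (2 * j) ∧
        2 * μ (2 * i) ≤ μ (2 * j + 1)) := by
      rcases lt_or_gt_of_ne hij' with h | h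
      · left
        exact hμlt' _ _ (by omega) (by omega)
      · right
        exact ⟨hμlt' _ _ (by omega) (by omega), hμlt' _ _ (by omega) (by omega)⟩
    rcases h5 with ⟨h5, h5'⟩ | ⟨h5, h5'⟩ <;> rcases h6 with ⟨h6, h6'⟩ | ⟨h6, h6'⟩
    · rw [h5', h6', hmv1, p6] at h7
      omega
    · rw [h5', h6', hmv1, p6, p5] at h7
      omega
    · rw [h5', h6', hmv1, p6, p4] at h7
      omega
    · rw [h5', h6', p6, p4, p5] at h7
      omega

end KG.H60
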