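import Pool.Agent.Lib.MP_ea1188_al.KG.Iface

/-! # [ORD]; MP_ea1188_al, helper60. -/

set_option autoImplicit false

namespace KG.H60

open KG

lemma pow_of_psi (w : Lam) (m : ℕ) (x y : Lam) (h : psi w ^ m = ⟨x, y, false⟩) (hx : pi0 x = 1)
    (hy : pi0 y = 1) : pi0 w ^ m = 1 := by
  have h1 : pi0 w = Wr.act pi0 (psi w) := (DFunLike.congr_fun act_psi w).symm
  rw [h1, ← map_pow, h]
  ext1 v
  rcases v with _ | ⟨c, v⟩
  · rfl
  · cases c <;> simp [hx, hy]

lemma base_pow {A : Type} [Group A] (x y : A) (m : ℕ) :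
    (⟨x, y, false⟩ : Wr A) ^ m = ⟨x ^ m, y ^ m, false⟩ := by
  induction m with
  | zero => ext <;> simp
  | succ m ih =>
    rw [pow_succ, ih]
    ext <;> simp [pow_succ]

lemma swap_pow {A : Type} [Group A] (x y : A) (m : ℕ) :
    (⟨x, y, true⟩ : Wr A) ^ (2 * m) = ⟨(x * y) ^ m, (y * x) ^ m, false⟩ := by
  rw [pow_mul, show (⟨x, y, true⟩ : Wr A) ^ 2 = ⟨x * y, y * x, false⟩ by
    rw [pow_two]; ext <;> simp, base_pow]

lemma ldla_pow : (ld * la) ^ 4 = 1 := by
  have h : ld * la = la⁻¹ * (la * ld) * la := by group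
  have h2 := conj_pow (a := la⁻¹) (b := la * ld) (i := 4)
  rw [inv_inv] at h2
  rw [h, h2, lad_pow]
  group

lemma ac8 : pi0 (la * lc) ^ 8 = 1 := by
  apply pow_of_psi (x := (ld * la) ^ 4) (y := (la * ld) ^ 4)
  · rw [show 8 = 2 * 4 from rfl, ← swap_pow]
    congr 1
    rw [map_mul, psi_la, psi_lc]
    ext <;> simp
  · rw [ldla_pow, map_one]
  · rw [lad_pow, map_one]

lemma ca8 : pi0 (lc * la) ^ 8 = 1 := by
  have h : lc * la = la⁻¹ * (la * lc) * la := by group
  have h2 := conj_pow (a := pi0 la⁻¹) (b := pi0 (la * lc)) (i := 8)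
  rw [ac8] at h2
  rw [h, map_mul, map_mul]
  have h3 : pi0 la = (pi0 la⁻¹)⁻¹ := by rw [map_inv, inv_inv]
  rw [h3, h2]
  group

lemma ord0 (i : Fin 3) : pi0 (lt i) ^ 8 = 1 := by
  have hpp : ∀ x : Lam, pi0 x ^ 8 = 1 → pi0 (x ^ 8) = 1 := fun x h => by rw [map_pow, h]
  fin_cases i
  · -- `b a b a = (ac, ca)`
    show pi0 (lb * (la * lb * la)) ^ 8 = 1
    apply pow_of_psi (x := (la * lc) ^ 8) (y := (lc * la) ^ 8)
    · rw [← base_pow]
      congr 1
    · exact hpp _ ac8
    · exact hpp _ ca8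
  · -- `(abab, 1)`
    show pi0 (lb * (la * ld * la * lb * (la * ld * la))) ^ 8 = 1
    apply pow_of_psi (x := (la * lb * (la * lb)) ^ 8) (y := (lc * lc) ^ 8)
    · rw [← base_pow]
      congr 1
    · apply hpp
      apply pow_of_psi (x := (lc * la) ^ 8) (y := (la * lc) ^ 8)
      · rw [← base_pow]
        congr 1
      · exact hpp _ ca8
      · exact hpp _ ac8
    · rw [show lc * lc = 1 from lbd_lbd, one_pow, map_one]
  · -- `(ac, c b a b)`
    show pi0 (lb * (ld * (la * lb * la) * ld)) ^ 8 = 1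
    apply pow_of_psi (x := (la * lc) ^ 8) (y := (lc * (lb * la * lb)) ^ 8)
    · rw [← base_pow]
      congr 1
    · exact hpp _ ac8
    · apply hpp
      -- `c b a b = b (c a) b`
      have h1 : lc * (lb * la * lb) = lb⁻¹ * (lc * la) * lb := by
        have h2 : lc * lb = lb * lc := by
          rw [lc, mul_assoc, ← lb_ld]
        have h3 : lb⁻¹ = lb := inv_eq_of_mul_eq_one_left lb_lb
        rw [h3, ← mul_assoc, ← mul_assoc, h2, mul_assoc lb lc la]
      have h2 := conj_pow (a := pi0 lb⁻¹) (b := pi0 (lc * la)) (i := 8)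
      rw [ca8] at h2
      rw [h1, map_mul, map_mul]
      have h3 : pi0 lb = (pi0 lb⁻¹)⁻¹ := by rw [map_inv, inv_inv]
      rw [h3, h2]
      group

lemma Ord8_map {H H' : Type} [Group H] [Group H'] (f : H →* H') :
    ∀ (n : ℕ) (ρ : PT n →* H), Ord8 n ρ → Ord8 n (f.comp ρ)
  | 0, ρ, h => fun i => by
    show f (ρ (FreeGroup.of i : FreeGroup (Fin 3))) ^ 8 = 1
    rw [← map_pow, h i, map_one]
  | n + 1, ρ, h => ⟨Ord8_map f n _ h.1, Ord8_map f n _ h.2⟩

theorem ord : OrdS := by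
  intro n
  induction n with
  | zero =>
    intro i
    show pi0 (jL (FreeGroup.of i)) ^ 8 = 1
    rw [jL, FreeGroup.lift_apply_of]
    exact ord0 i
  | succ n ih =>
    constructor
    · have h := Ord8_map ((Wr.act (MonoidHom.id (Equiv.Perm (List Bool)))).comp Wr.inl) n _ ih
      convert h using 1
      refine MonoidHom.ext fun z => ?_
      show Wr.act (alN n) ⟨iPT n z, iPT n 1, false⟩ =
        Wr.act (MonoidHom.id _) ⟨alN n (iPT n z), 1, false⟩
      have h2 := act_map (alN n) (MonoidHom.id _) (⟨iPT n z, iPT n 1, false⟩ : Wr (W n))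
      rw [MonoidHom.id_comp] at h2
      rw [← h2]
      congr 1
      ext <;> simp
    · have h := Ord8_map ((Wr.act (MonoidHom.id (Equiv.Perm (List Bool)))).comp Wr.inr) n _ ih
      convert h using 1
      refine MonoidHom.ext fun z => ?_
      show Wr.act (alN n) ⟨iPT n 1, iPT n z, false⟩ =
        Wr.act (MonoidHom.id _) ⟨1, alN n (iPT n z), false⟩
      have h2 := act_map (alN n) (MonoidHom.id _) (⟨iPT n 1, iPT n z, false⟩ : Wr (W n))
      rw [MonoidHom.id_comp] at h2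
      rw [← h2]
      congr 1
      ext <;> simp

end KG.H60
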