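import Pool.Agent.Lib.MP_ea1188_al.KG.AsmAC
import Pool.Agent.Lib.MP_ea1188_al.KG.H15.Tower
import Pool.Agent.Lib.MP_ea1188_al.KG.H16.K1
import Pool.Agent.Lib.MP_ea1188_al.KG.H17.Hom
import Pool.Agent.Lib.MP_ea1188_al.KG.H33.Lfree
import Pool.Agent.Lib.MP_ea1188_al.KG.H33.Lnorm
import Pool.Agent.Lib.MP_ea1188_al.KG.H36.Trans
import Pool.Agent.Lib.MP_ea1188_al.KG.H65.Evc
import Pool.Agent.Lib.MP_ea1188_al.KG.H70.Trc
import Pool.Agent.Lib.MP_ea1188_al.KG.H72.Contr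
import Pool.Agent.Lib.MP_ea1188_al.KG.H72.Free
import Pool.Agent.Lib.MP_ea1188_al.KG.H72.Lift
import Pool.Agent.Lib.MP_ea1188_al.KG.H78.Dlog
import Pool.Agent.Lib.MP_ea1188_al.KG.H78.Expl
import Pool.Agent.Lib.MP_ea1188_al.KG.H78.Pru
import Pool.Agent.Lib.MP_ea1188_al.KG.H81.Gam
import Pool.Agent.Lib.MP_ea1188_al.KG.H82.K0
import Pool.Agent.Lib.MP_ea1188_al.KG.H60.ChiAsm
import Pool.Agent.Lib.MP_ea1188_al.KG.H60.EltAsm
import Pool.Agent.Lib.MP_ea1188_al.KG.H60.Count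
import Pool.Agent.Lib.MP_ea1188_al.KG.H60.Ord
import Pool.Agent.Lib.MP_ea1188_al.KG.H60.Chain

/-! # Assembly of the main theorem from the modules (MP_ea1188_al, helper60). -/

set_option autoImplicit false

namespace KG.H60

open KG

/-- The main theorem. -/
theorem main : PartA ∧ PartB ∧ PartC := by
  have hAC : MainACS := mainAC (KG.H72.free KG.H17.hom) (chain KG.H36.trans) ord
    (KG.H15.pnorm KG.H33.lnorm) (KG.H15.psub KG.H33.lfree KG.H33.lbr) (KG.H72.lift KG.H72.contr)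
  have hA : PartA := partA hAC KG.H16.k1
  have hC : PartC := partC hAC KG.H82.k0
  have hChi : ChiS := chiAsm KG.H78.expl KG.H78.dlog KG.H70.trc KG.H65.cyc KG.H65.evc
  have hElt : EltS := eltAsm KG.H33.lbr KG.H15.qb KG.H15.qfac KG.H81.wrr KG.H15.mvs
    (KG.H81.gam KG.H33.lbr KG.H81.wrr)
  exact ⟨hA, partB hA KG.H78.pru count yelS hChi hElt, hC⟩

end KG.H60
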